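import Mathlib

/-!
# MP_8cf907_al: the quantum automorphism group of the complete hypergraph

For every finite set `V`, the quantum automorphism group of the complete hypergraph `Γ_V` is the
classical symmetric group `S_V`: its universal C*-algebra is `C(S_V)`, the algebra of functions on
the permutations of `V`.  In particular it is a proper quantum subgroup of `S_V⁺` as soon as `V` has
at least four elements.
-/

set_option autoImplicit false

namespace Pool.Agent.Results.MP_8cf907_al.CompleteHypergraph

universe u v w

section Defs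

/-- A magic unitary: every entry is a projection, and every row and every column sums to `1`. -/
structure IsMagic {X : Type u} [Fintype X] {A : Type v} [CStarAlgebra A]
    (a : Matrix X X A) : Prop where
  star_eq : ∀ i j, star (a i j) = a i j
  mul_self : ∀ i j, a i j * a i j = a i j
  row_sum : ∀ i, ∑ j, a i j = 1
  col_sum : ∀ j, ∑ i, a i j = 1

/-- A hypergraph with vertex set `V` and edge set `E`: source and range maps from the edges to the
subsets of `V`. -/
structure Hypergraph (V : Type u) (E : Type v) where
  s : E → Finset V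
  r : E → Finset V

/-- The incidence matrix of a map from the edges to the subsets of `V`. -/
def incidence {V : Type u} {E : Type v} [DecidableEq V] (A : Type w) [Zero A] [One A]
    (t : E → Finset V) : Matrix V E A :=
  fun x e => if x ∈ t e then 1 else 0

/-- The relations of the quantum automorphism group of a hypergraph: `a` and `b` are magic
unitaries, `A_s b = a A_s` and `A_r b = a A_r`. -/
structure IsAutPair {V : Type u} {E : Type v} [Fintype V] [DecidableEq V] [Fintype E]
    {A : Type w} [CStarAlgebra A] (G : Hypergraph V E) (a : Matrix V V A) (b : Matrix E E A) :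
    Prop where
  magicV : IsMagic a
  magicE : IsMagic b
  source : incidence A G.s * b = a * incidence A G.s
  range : incidence A G.r * b = a * incidence A G.r

/-- The complete hypergraph `Γ_V = (V, P(V) × P(V))` with `s(X, Y) = X` and `r(X, Y) = Y`. -/
def complete (V : Type u) : Hypergraph V (Finset V × Finset V) where
  s := Prod.fst
  r := Prod.snd

/-- `(B, a)` is the universal unital C*-algebra generated by a magic unitary indexed by `V`, that
is, `B = C(S_V⁺)`. -/
def IsUniversalMagic {V : Type u} [Fintype V] {B : Type v} [CStarAlgebra B]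
    (a : Matrix V V B) : Prop :=
  IsMagic a ∧ ∀ (A : Type w) [CStarAlgebra A] (a' : Matrix V V A), IsMagic a' →
    ∃! φ : B →⋆ₐ[ℂ] A, ∀ x y, φ (a x y) = a' x y

/-- `(B, a ⊕ b)` is the quantum automorphism group of the hypergraph `G`: `B` is the universal
unital C*-algebra generated by the entries of `a` and `b` subject to the relations `IsAutPair`. -/
def IsUniversalAutPair {V : Type u} {E : Type u} [Fintype V] [DecidableEq V] [Fintype E]
    (G : Hypergraph V E) {B : Type v} [CStarAlgebra B] (a : Matrix V V B) (b : Matrix E E B) :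
    Prop :=
  IsAutPair G a b ∧
    ∀ (A : Type w) [CStarAlgebra A] (a' : Matrix V V A) (b' : Matrix E E A), IsAutPair G a' b' →
      ∃! φ : B →⋆ₐ[ℂ] A, (∀ x y, φ (a x y) = a' x y) ∧ ∀ e f, φ (b e f) = b' e f

/-- The canonical magic unitary of the classical symmetric group: `a_{xy}` is the indicator
function of `{σ | σ y = x}`. -/
def symV (V : Type u) [DecidableEq V] : Matrix V V (Equiv.Perm V → ℂ) :=
  fun x y σ => if σ y = x then 1 else 0

/-- The induced magic unitary on the edges of the complete hypergraph: `b_{ef}` is the indicator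
function of `{σ | σ f = e}`. -/
def symE (V : Type u) [DecidableEq V] :
    Matrix (Finset V × Finset V) (Finset V × Finset V) (Equiv.Perm V → ℂ) :=
  fun e f σ => if (f.1.image σ, f.2.image σ) = e then 1 else 0

end Defs

section Orth

variable {A : Type w} [CStarAlgebra A]

/-- projections summing to one are orthogonal -/
theorem orth {ι : Type*} [Fintype ι] (p : ι → A) (hs : ∀ i, star (p i) = p i)
    (hp : ∀ i, p i * p i = p i) (h1 : ∑ i, p i = 1) (i j : ι) (hij : i ≠ j) :
    p i * p j = 0 := by
  classical
  let _ := CStarAlgebra.spectralOrder A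
  have _ := CStarAlgebra.spectralOrderedRing A
  have h2 : ∑ k ∈ Finset.univ.erase i, p i * p k * p i = 0 := by
    have h3 : p i * (∑ k, p k) * p i = p i := by rw [h1, mul_one, hp]
    rw [Finset.mul_sum, Finset.sum_mul, ← Finset.add_sum_erase _ _ (Finset.mem_univ i), hp,
      hp] at h3
    simpa using h3
  have h4 : ∀ k ∈ Finset.univ.erase i, 0 ≤ p i * p k * p i := by
    intro k _
    have h5 : p i * p k * p i = star (p k * p i) * (p k * p i) := by
      rw [star_mul, hs, hs, mul_assoc, mul_assoc, ← mul_assoc (p k) (p k), hp]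
    rw [h5]
    exact star_mul_self_nonneg _
  have h6 := (Finset.sum_eq_zero_iff_of_nonneg h4).mp h2 j
    (Finset.mem_erase.mpr ⟨hij.symm, Finset.mem_univ j⟩)
  have h7 : star (p j * p i) * (p j * p i) = 0 := by
    rw [star_mul, hs, hs, mul_assoc, ← mul_assoc (p j) (p j), hp, ← mul_assoc]
    exact h6
  have h8 : p j * p i = 0 := (CStarRing.star_mul_self_eq_zero_iff _).mp h7
  have h9 := congrArg star h8
  rwa [star_mul, hs, hs, star_zero] at h9

theorem IsMagic.row_orth {X : Type u} [Fintype X] {a : Matrix X X A} (h : IsMagic a)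
    (i j k : X) (hjk : j ≠ k) : a i j * a i k = 0 :=
  orth (fun j => a i j) (h.star_eq i) (h.mul_self i) (h.row_sum i) j k hjk

theorem IsMagic.col_orth {X : Type u} [Fintype X] {a : Matrix X X A} (h : IsMagic a)
    (i j k : X) (hij : i ≠ j) : a i k * a j k = 0 :=
  orth (fun i => a i k) (fun i => h.star_eq i k) (fun i => h.mul_self i k) (h.col_sum k) i j hij

end Orth

section Relations

variable {V : Type u} [Fintype V] [DecidableEq V] {A : Type w} [CStarAlgebra A]
  {a : Matrix V V A} {b b' : Matrix (Finset V × Finset V) (Finset V × Finset V) A}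

theorem IsAutPair.source_eq {E : Type v} [Fintype E] {G : Hypergraph V E} {b : Matrix E E A}
    (h : IsAutPair G a b) (x : V) (f : E) :
    ∑ e, (if x ∈ G.s e then b e f else 0) = ∑ y, (if y ∈ G.s f then a x y else 0) := by
  have h1 := congrFun (congrFun h.source x) f
  simpa [Matrix.mul_apply, incidence, ite_mul, mul_ite] using h1

theorem IsAutPair.range_eq {E : Type v} [Fintype E] {G : Hypergraph V E} {b : Matrix E E A}
    (h : IsAutPair G a b) (x : V) (f : E) :
    ∑ e, (if x ∈ G.r e then b e f else 0) = ∑ y, (if y ∈ G.r f then a x y else 0) := by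
  have h1 := congrFun (congrFun h.range x) f
  simpa [Matrix.mul_apply, incidence, ite_mul, mul_ite] using h1

/-- sums over parts of a column commute -/
theorem IsMagic.col_comm {E : Type v} [Fintype E] {b : Matrix E E A} (h : IsMagic b) (f : E)
    (P Q : E → Prop) [DecidablePred P] [DecidablePred Q] :
    (∑ e, if P e then b e f else 0) * (∑ e, if Q e then b e f else 0) =
      (∑ e, if Q e then b e f else 0) * (∑ e, if P e then b e f else 0) := by
  classical
  have h1 : ∀ e e', b e f * b e' f = b e' f * b e f := by
    intro e e'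
    by_cases hee : e = e'
    · rw [hee]
    · rw [h.col_orth e e' f hee, h.col_orth e' e f (Ne.symm hee)]
  refine Commute.sum_left _ _ _ fun e _ => Commute.sum_right _ _ _ fun e' _ => ?_
  by_cases hP : P e
  · by_cases hQ : Q e'
    · rw [if_pos hP, if_pos hQ]; exact h1 e e'
    · rw [if_neg hQ]; exact Commute.zero_right _
  · rw [if_neg hP]; exact Commute.zero_left _

/-- **The entries of `a` commute.** -/
theorem IsAutPair.comm (h : IsAutPair (complete V) a b) (x y z t : V) :
    a x y * a z t = a z t * a x y := by
  by_cases hxz : x = z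
  · subst hxz
    by_cases hyt : y = t
    · rw [hyt]
    · rw [h.magicV.row_orth x y t hyt, h.magicV.row_orth x t y (Ne.symm hyt)]
  by_cases hyt : y = t
  · subst hyt
    rw [h.magicV.col_orth x z y hxz, h.magicV.col_orth z x y (Ne.symm hxz)]
  -- the edge `({y, t}, ∅)`
  have hs : ∀ p : V, ∑ e, (if p ∈ (complete V).s e then b e ({y, t}, ∅) else 0) =
      a p y + a p t := by
    intro p
    rw [h.source_eq p ({y, t}, ∅)]
    have : ∀ q : V, (if q ∈ (complete V).s (({y, t} : Finset V), (∅ : Finset V)) then a p q else 0)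
        = (if q = y then a p y else 0) + (if q = t then a p t else 0) := by
      intro q
      have hm : q ∈ (complete V).s (({y, t} : Finset V), (∅ : Finset V)) ↔ q = y ∨ q = t := by
        simp [complete]
      by_cases h1 : q = y
      · subst h1
        simp [hm, hyt]
      · by_cases h2 : q = t
        · subst h2
          simp [hm, h1]
        · simp [hm, h1, h2]
    rw [Finset.sum_congr rfl fun q _ => this q, Finset.sum_add_distrib]
    simp
  have hc := h.magicE.col_comm ({y, t}, ∅) (fun e => x ∈ (complete V).s e)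
    (fun e => z ∈ (complete V).s e)
  rw [hs x, hs z] at hc
  -- orthogonality
  have o1 := h.magicV.col_orth x z y hxz
  have o2 := h.magicV.col_orth z x y (Ne.symm hxz)
  have o3 := h.magicV.col_orth x z t hxz
  have o4 := h.magicV.col_orth z x t (Ne.symm hxz)
  have o5 := h.magicV.row_orth x y t hyt
  have i1 := h.magicV.mul_self x y
  have hc2 : a x y * a z t + a x t * a z y = a z y * a x t + a z t * a x y := by
    have e1 : (a x y + a x t) * (a z y + a z t) = a x y * a z t + a x t * a z y := by
      rw [add_mul, mul_add, mul_add, o1, o3]; abel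
    have e2 : (a z y + a z t) * (a x y + a x t) = a z y * a x t + a z t * a x y := by
      rw [add_mul, mul_add, mul_add, o2, o4]; abel
    rw [← e1, ← e2]; exact hc
  have hc3 := congrArg (fun q => a x y * q) hc2
  simp only [mul_add] at hc3
  rw [← mul_assoc (a x y) (a x y), i1, ← mul_assoc (a x y) (a x t), o5, zero_mul, add_zero,
    ← mul_assoc (a x y) (a z y), o1, zero_mul, zero_add] at hc3
  -- `a x y * a z t = a x y * (a z t * a x y)`
  have hst := congrArg star hc3
  rw [star_mul, star_mul, star_mul, h.magicV.star_eq, h.magicV.star_eq, mul_assoc] at hst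
  exact hc3.trans hst.symm

/-- `b` is determined by `a`. -/
theorem IsAutPair.unique (h : IsAutPair (complete V) a b) (h' : IsAutPair (complete V) a b') :
    b = b' := by
  ext e f
  have key : ∀ e₁ e₂ : Finset V × Finset V, e₁ ≠ e₂ → b' e₁ f * b e₂ f = 0 := by
    intro e₁ e₂ hne
    -- a general fact on sums of parts of a column
    have L : ∀ (P : Finset V × Finset V → Prop) [DecidablePred P],
        (∑ e, if P e then b e f else 0) * b e₂ f = if P e₂ then b e₂ f else 0 := by
      intro P _
      rw [Finset.sum_mul, Finset.sum_eq_single e₂]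
      · split_ifs
        · exact h.magicE.mul_self _ _
        · exact zero_mul _
      · intro e _ he
        split_ifs
        · exact h.magicE.col_orth _ _ _ he
        · exact zero_mul _
      · intro hh; exact absurd (Finset.mem_univ _) hh
    have R : ∀ (P : Finset V × Finset V → Prop) [DecidablePred P],
        b' e₁ f * (∑ e, if P e then b' e f else 0) = if P e₁ then b' e₁ f else 0 := by
      intro P _
      rw [Finset.mul_sum, Finset.sum_eq_single e₁]
      · split_ifs
        · exact h'.magicE.mul_self _ _
        · exact mul_zero _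
      · intro e _ he
        split_ifs
        · exact h'.magicE.col_orth _ _ _ (Ne.symm he)
        · exact mul_zero _
      · intro hh; exact absurd (Finset.mem_univ _) hh
    have hS : ∀ x : V, (if x ∈ e₂.1 then b' e₁ f * b e₂ f else 0) =
        if x ∈ e₁.1 then b' e₁ f * b e₂ f else 0 := by
      intro x
      have l := L (fun e => x ∈ (complete V).s e)
      have r := R (fun e => x ∈ (complete V).s e)
      rw [h.source_eq x f] at l
      rw [h'.source_eq x f] at r
      have l2 := congrArg (fun q => b' e₁ f * q) l
      have r2 := congrArg (fun q => q * b e₂ f) r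
      beta_reduce at l2 r2
      rw [← mul_assoc, r2] at l2
      by_cases m1 : x ∈ e₁.1 <;> by_cases m2 : x ∈ e₂.1 <;>
        simp only [complete, m1, m2, if_true, if_false, zero_mul, mul_zero] at l2 ⊢
      · exact l2.symm
      · exact l2.symm
    have hR : ∀ x : V, (if x ∈ e₂.2 then b' e₁ f * b e₂ f else 0) =
        if x ∈ e₁.2 then b' e₁ f * b e₂ f else 0 := by
      intro x
      have l := L (fun e => x ∈ (complete V).r e)
      have r := R (fun e => x ∈ (complete V).r e)
      rw [h.range_eq x f] at l
      rw [h'.range_eq x f] at r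
      have l2 := congrArg (fun q => b' e₁ f * q) l
      have r2 := congrArg (fun q => q * b e₂ f) r
      beta_reduce at l2 r2
      rw [← mul_assoc, r2] at l2
      by_cases m1 : x ∈ e₁.2 <;> by_cases m2 : x ∈ e₂.2 <;>
        simp only [complete, m1, m2, if_true, if_false, zero_mul, mul_zero] at l2 ⊢
      · exact l2.symm
      · exact l2.symm
    by_contra hcon
    apply hne
    apply Prod.ext
    · ext x
      have := hS x
      by_cases h1 : x ∈ e₁.1 <;> by_cases h2 : x ∈ e₂.1 <;> simp_all
    · ext x
      have := hR x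
      by_cases h1 : x ∈ e₁.2 <;> by_cases h2 : x ∈ e₂.2 <;> simp_all
  have h1 : b' e f * b e f = b e f := by
    have h2 : (∑ e₁, b' e₁ f) * b e f = b e f := by rw [h'.magicE.col_sum, one_mul]
    rw [Finset.sum_mul, Finset.sum_eq_single e] at h2
    · exact h2
    · intro e₁ _ he
      exact key e₁ e he
    · intro hh; exact absurd (Finset.mem_univ _) hh
  have h3 : b' e f * b e f = b' e f := by
    have h2 : b' e f * (∑ e₁, b e₁ f) = b' e f := by rw [h.magicE.col_sum, mul_one]
    rw [Finset.mul_sum, Finset.sum_eq_single e] at h2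
    · exact h2
    · intro e₁ _ he
      exact key e e₁ (Ne.symm he)
    · intro hh; exact absurd (Finset.mem_univ _) hh
  rw [← h1, h3]

end Relations

section Model

variable (V : Type u) [Fintype V] [DecidableEq V]

theorem symV_magic : IsMagic (symV V) := by
  refine ⟨?_, ?_, ?_, ?_⟩
  · intro x y
    ext σ
    simp only [Pi.star_apply, symV]
    split_ifs <;> simp
  · intro x y
    ext σ
    simp only [Pi.mul_apply, symV]
    split_ifs <;> simp
  · intro x
    ext σ
    simp only [Finset.sum_apply, symV, Pi.one_apply]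
    have : ∀ y, (σ y = x) ↔ (y = σ.symm x) := fun y => ⟨fun h => by rw [← h]; simp, fun h => by
      rw [h]; simp⟩
    simp only [this]
    simp
  · intro y
    ext σ
    simp [Finset.sum_apply, symV]

theorem symE_magic : IsMagic (symE V) := by
  refine ⟨?_, ?_, ?_, ?_⟩
  · intro x y
    ext σ
    simp only [Pi.star_apply, symE]
    split_ifs <;> simp
  · intro x y
    ext σ
    simp only [Pi.mul_apply, symE]
    split_ifs <;> simp
  · intro e
    ext σ
    simp only [Finset.sum_apply, symE, Pi.one_apply]
    have : ∀ f : Finset V × Finset V, ((f.1.image σ, f.2.image σ) = e) ↔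
        (f = (e.1.image σ.symm, e.2.image σ.symm)) := by
      intro f
      constructor
      · intro h
        rw [← h]
        simp [Finset.image_image]
      · intro h
        rw [h]
        simp [Finset.image_image]
    simp only [this]
    simp
  · intro f
    ext σ
    simp [Finset.sum_apply, symE]

theorem sym_pair_aux (t : Finset V × Finset V → Finset V)
    (ht : ∀ (f : Finset V × Finset V) (σ : Equiv.Perm V),
      t (f.1.image σ, f.2.image σ) = (t f).image σ) :
    incidence (Equiv.Perm V → ℂ) t * symE V = symV V * incidence (Equiv.Perm V → ℂ) t := by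
  ext x f σ
  rw [Matrix.mul_apply, Matrix.mul_apply, Finset.sum_apply, Finset.sum_apply]
  have e1 : ∑ e, (incidence (Equiv.Perm V → ℂ) t x e * symE V e f) σ =
      if x ∈ (t f).image σ then 1 else 0 := by
    rw [Finset.sum_eq_single (f.1.image σ, f.2.image σ)]
    · simp only [Pi.mul_apply, incidence, symE, if_true, mul_one, ht]
      split_ifs <;> simp
    · intro e _ he
      simp only [Pi.mul_apply, symE, if_neg (Ne.symm he), mul_zero]
    · intro h; exact absurd (Finset.mem_univ _) h
  have e2 : ∑ y, (symV V x y * incidence (Equiv.Perm V → ℂ) t y f) σ =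
      if x ∈ (t f).image σ then 1 else 0 := by
    rw [Finset.sum_eq_single (σ.symm x)]
    · have hm : x ∈ (t f).image σ ↔ σ.symm x ∈ t f := by
        rw [Finset.mem_image]
        constructor
        · rintro ⟨y, hy, rfl⟩
          simpa using hy
        · intro h
          exact ⟨_, h, by simp⟩
      simp only [Pi.mul_apply, incidence, symV, Equiv.apply_symm_apply, if_true, one_mul, hm]
      split_ifs <;> simp
    · intro y _ hy
      have : ¬ σ y = x := by
        intro h
        apply hy
        rw [← h]; simp
      simp only [Pi.mul_apply, symV, if_neg this, zero_mul]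
    · intro h; exact absurd (Finset.mem_univ _) h
  rw [e1, e2]

theorem sym_pair : IsAutPair (complete V) (symV V) (symE V) :=
  ⟨symV_magic V, symE_magic V, sym_pair_aux V Prod.fst fun _ _ => rfl,
    sym_pair_aux V Prod.snd fun _ _ => rfl⟩

/-- the indicator functions of the permutations are products of entries of `symV` -/
theorem single_eq_prod (σ : Equiv.Perm V) :
    (Pi.single σ 1 : Equiv.Perm V → ℂ) = ∏ x, symV V (σ x) x := by
  ext τ
  rw [Finset.prod_apply]
  by_cases h : τ = σ
  · subst h
    simp [symV]
  · rw [Pi.single_eq_of_ne h]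
    have h2 : ∃ x, τ x ≠ σ x := by
      by_contra hcon
      push Not at hcon
      exact h (Equiv.ext hcon)
    obtain ⟨x, hx⟩ := h2
    rw [Finset.prod_eq_zero (Finset.mem_univ x)]
    simp [symV, hx]

variable {V}

/-- a *-homomorphism on `C(S_V)` is determined by the images of the entries of `symV` -/
theorem hom_ext {A : Type w} [CStarAlgebra A] {φ ψ : (Equiv.Perm V → ℂ) →⋆ₐ[ℂ] A}
    (h : ∀ x y, φ (symV V x y) = ψ (symV V x y)) : φ = ψ := by
  have h1 : ∀ g : Equiv.Perm V → ℂ, g ∈ AlgHom.equalizer φ.toAlgHom ψ.toAlgHom := by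
    intro g
    have hg : g = ∑ σ, g σ • (Pi.single σ 1 : Equiv.Perm V → ℂ) := by
      ext τ
      simp [Finset.sum_apply, Pi.single_apply]
    rw [hg]
    refine Subalgebra.sum_mem _ fun σ _ => Subalgebra.smul_mem _ ?_ _
    rw [single_eq_prod]
    refine Subalgebra.prod_mem _ fun x _ => ?_
    rw [AlgHom.mem_equalizer]
    exact h _ _
  ext g
  exact (AlgHom.mem_equalizer _ _ _).mp (h1 g)

end Model

section CommRingPart

variable {V : Type u} [Fintype V] [DecidableEq V] {S : Type w} [CommRing S]

theorem prod_mul {U : Matrix V V S} (hi : ∀ x y, U x y * U x y = U x y)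
    (ho : ∀ x y z, x ≠ y → U x z * U y z = 0) (σ : Equiv.Perm V) (x y : V) :
    (∏ z, U (σ z) z) * U x y = if σ y = x then ∏ z, U (σ z) z else 0 := by
  rw [← Finset.mul_prod_erase Finset.univ (fun z => U (σ z) z) (Finset.mem_univ y)]
  split_ifs with h
  · subst h
    calc U (σ y) y * (∏ z ∈ Finset.univ.erase y, U (σ z) z) * U (σ y) y
        = (U (σ y) y * U (σ y) y) * ∏ z ∈ Finset.univ.erase y, U (σ z) z := by ring
      _ = _ := by rw [hi]
  · calc U (σ y) y * (∏ z ∈ Finset.univ.erase y, U (σ z) z) * U x y
        = (U (σ y) y * U x y) * ∏ z ∈ Finset.univ.erase y, U (σ z) z := by ring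
      _ = 0 := by rw [ho _ _ _ h, zero_mul]

theorem prod_mul_prod {U : Matrix V V S} (hi : ∀ x y, U x y * U x y = U x y)
    (ho : ∀ x y z, x ≠ y → U x z * U y z = 0) (σ τ : Equiv.Perm V) :
    (∏ z, U (σ z) z) * (∏ z, U (τ z) z) = if σ = τ then ∏ z, U (σ z) z else 0 := by
  split_ifs with h
  · subst h
    rw [← Finset.prod_mul_distrib]
    exact Finset.prod_congr rfl fun z _ => hi _ _
  · obtain ⟨x, hx⟩ : ∃ x, σ x ≠ τ x := by
      by_contra hcon
      push Not at hcon
      exact h (Equiv.ext hcon)
    rw [← Finset.mul_prod_erase Finset.univ (fun z => U (τ z) z) (Finset.mem_univ x), ← mul_assoc,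
      prod_mul hi ho, if_neg hx, zero_mul]

theorem sum_prod_eq_one {U : Matrix V V S} (hc : ∀ y, ∑ x, U x y = 1)
    (hr : ∀ x y z, y ≠ z → U x y * U x z = 0) :
    ∑ σ : Equiv.Perm V, ∏ z, U (σ z) z = 1 := by
  have h1 : ∏ z : V, ∑ x, U x z = 1 := by
    simp [hc]
  rw [Finset.prod_univ_sum] at h1
  rw [← h1, Fintype.piFinset_univ]
  symm
  -- sum over all functions = sum over permutations
  rw [← Finset.sum_filter_add_sum_filter_not Finset.univ (fun f : V → V => Function.Injective f)]
  rw [Finset.sum_eq_zero (s := Finset.univ.filter (fun f : V → V => ¬ Function.Injective f)),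
    add_zero]
  · symm
    refine Finset.sum_bij (fun σ _ => (σ : V → V)) ?_ ?_ ?_ ?_
    · intro σ _
      rw [Finset.mem_filter]
      exact ⟨Finset.mem_univ _, σ.injective⟩
    · intro σ _ τ _ h
      exact Equiv.coe_fn_injective h
    · intro f hf
      rw [Finset.mem_filter] at hf
      exact ⟨Equiv.ofBijective f (Finite.injective_iff_bijective.mp hf.2), Finset.mem_univ _, rfl⟩
    · intro σ _
      rfl
  · intro f hf
    rw [Finset.mem_filter] at hf
    obtain ⟨y, z, h, hne⟩ : ∃ y z, f y = f z ∧ y ≠ z := by
      have h3 := hf.2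
      unfold Function.Injective at h3
      push Not at h3
      exact h3
    rw [← Finset.mul_prod_erase Finset.univ (fun z => U (f z) z) (Finset.mem_univ y),
      ← Finset.mul_prod_erase (Finset.univ.erase y) (fun z => U (f z) z)
        (Finset.mem_erase.mpr ⟨hne.symm, Finset.mem_univ z⟩), ← mul_assoc, h, hr _ _ _ hne,
      zero_mul]

end CommRingPart

section Hom

variable {V : Type u} [Fintype V] [DecidableEq V] {A : Type w} [CStarAlgebra A]

/-- A magic unitary with commuting entries is the image of the canonical magic unitary of `S_V`. -/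
theorem exists_hom {a : Matrix V V A} (h : IsMagic a)
    (hcomm : ∀ x y z t, a x y * a z t = a z t * a x y) :
    ∃ φ : (Equiv.Perm V → ℂ) →⋆ₐ[ℂ] A, ∀ x y, φ (symV V x y) = a x y := by
  -- the commutative subalgebra generated by the entries
  let T : Set A := Set.range fun p : V × V => a p.1 p.2
  have hT : ∀ p ∈ T, ∀ q ∈ T, p * q = q * p := by
    rintro _ ⟨p, rfl⟩ _ ⟨q, rfl⟩
    exact hcomm _ _ _ _
  let S := Algebra.adjoin ℂ T
  letI : CommRing S := Algebra.adjoinCommRingOfComm ℂ hT
  let U : Matrix V V S := fun x y => ⟨a x y, Algebra.subset_adjoin ⟨(x, y), rfl⟩⟩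
  have hi : ∀ x y, U x y * U x y = U x y := fun x y => Subtype.ext (h.mul_self x y)
  have ho : ∀ x y z, x ≠ y → U x z * U y z = 0 := fun x y z hxy =>
    Subtype.ext (h.col_orth x y z hxy)
  have hr : ∀ x y z, y ≠ z → U x y * U x z = 0 := fun x y z hyz =>
    Subtype.ext (h.row_orth x y z hyz)
  let ι : S →+* A := S.val.toRingHom
  have hιU : ∀ x y, ι (U x y) = a x y := fun _ _ => rfl
  have hc : ∀ y, ∑ x, U x y = 1 := by
    intro y
    apply Subtype.ext
    show ι (∑ x, U x y) = 1
    rw [map_sum]
    simp only [hιU]
    exact h.col_sum y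
  let P : Equiv.Perm V → A := fun σ => ι (∏ z, U (σ z) z)
  have hP1 : ∑ σ, P σ = 1 := by
    show ∑ σ : Equiv.Perm V, ι (∏ z, U (σ z) z) = 1
    rw [← map_sum, sum_prod_eq_one hc hr, map_one]
  have hPP : ∀ σ τ, P σ * P τ = if σ = τ then P σ else 0 := by
    intro σ τ
    show ι (∏ z, U (σ z) z) * ι (∏ z, U (τ z) z) = _
    rw [← map_mul, prod_mul_prod hi ho]
    split_ifs
    · rfl
    · exact map_zero _
  have hPU : ∀ σ x y, P σ * a x y = if σ y = x then P σ else 0 := by
    intro σ x y
    show ι (∏ z, U (σ z) z) * ι (U x y) = _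
    rw [← map_mul, prod_mul hi ho]
    split_ifs
    · rfl
    · exact map_zero _
  have hstar : ∀ σ, star (P σ) = P σ := by
    intro σ
    refine Finset.prod_induction (fun z => U (σ z) z) (fun q : S => star (ι q) = ι q) ?_ ?_ ?_
    · intro p q hp hq
      rw [map_mul, star_mul, hp, hq, ← map_mul, mul_comm, map_mul]
    · rw [map_one, star_one]
    · intro z _
      rw [hιU]
      exact h.star_eq _ _
  refine ⟨{ toFun := fun g => ∑ σ, g σ • P σ
            map_one' := ?_
            map_mul' := ?_
            map_zero' := ?_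
            map_add' := ?_
            commutes' := ?_
            map_star' := ?_ }, ?_⟩
  · simp [hP1]
  · intro g k
    rw [Finset.sum_mul_sum]
    refine Finset.sum_congr rfl fun σ _ => ?_
    rw [Finset.sum_eq_single σ]
    · rw [smul_mul_smul_comm, hPP, if_pos rfl, Pi.mul_apply]
    · intro τ _ hτ
      rw [smul_mul_smul_comm, hPP, if_neg (Ne.symm hτ), smul_zero]
    · intro hh; exact absurd (Finset.mem_univ _) hh
  · simp
  · intro g k
    simp only [Pi.add_apply, add_smul, Finset.sum_add_distrib]
  · intro c
    simp only [Pi.algebraMap_apply, Algebra.algebraMap_self, RingHom.id_apply]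
    rw [← Finset.smul_sum, hP1, Algebra.algebraMap_eq_smul_one]
  · intro g
    simp only [star_sum, star_smul, hstar, Pi.star_apply]
  · intro x y
    show ∑ σ, symV V x y σ • P σ = a x y
    have h1 : a x y = (∑ σ, P σ) * a x y := by rw [hP1, one_mul]
    rw [h1, Finset.sum_mul]
    refine Finset.sum_congr rfl fun σ _ => ?_
    rw [hPU]
    simp only [symV]
    split_ifs
    · exact one_smul _ _
    · exact zero_smul _ _

/-- The image of a magic unitary under a *-homomorphism. -/
theorem IsMagic.map {X : Type u} [Fintype X] {B : Type v} [CStarAlgebra B] {a : Matrix X X B}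
    (h : IsMagic a) (φ : B →⋆ₐ[ℂ] A) : IsMagic (a.map φ) := by
  refine ⟨?_, ?_, ?_, ?_⟩
  · intro i j; rw [Matrix.map_apply, ← map_star, h.star_eq]
  · intro i j; rw [Matrix.map_apply, ← map_mul, h.mul_self]
  · intro i; simp only [Matrix.map_apply]; rw [← map_sum, h.row_sum, map_one]
  · intro i; simp only [Matrix.map_apply]; rw [← map_sum, h.col_sum, map_one]

/-- The image of a pair under a *-homomorphism. -/
theorem IsAutPair.map {E : Type v} [Fintype E] {B : Type v} [CStarAlgebra B]
    {G : Hypergraph V E} {a : Matrix V V B} {b : Matrix E E B}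
    (h : IsAutPair G a b) (φ : B →⋆ₐ[ℂ] A) : IsAutPair G (a.map φ) (b.map φ) := by
  refine ⟨h.magicV.map φ, h.magicE.map φ, ?_, ?_⟩
  · ext x f
    have h1 := congrArg φ (h.source_eq x f)
    rw [map_sum, map_sum] at h1
    simpa [Matrix.mul_apply, incidence, apply_ite φ] using h1
  · ext x f
    have h1 := congrArg φ (h.range_eq x f)
    rw [map_sum, map_sum] at h1
    simpa [Matrix.mul_apply, incidence, apply_ite φ] using h1

end Hom

section NonCommuting

open scoped ComplexOrder in
/-- two noncommuting projections in a C*-algebra -/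
theorem exists_proj : ∃ (A : Type) (_ : CStarAlgebra A) (p q : A),
    star p = p ∧ star q = q ∧ p * p = p ∧ q * q = q ∧ p * q ≠ q * p := by
  refine ⟨CStarMatrix (Fin 2) (Fin 2) ℂ, inferInstance,
    CStarMatrix.ofMatrix !![1, 0; 0, 0], CStarMatrix.ofMatrix !![1/2, 1/2; 1/2, 1/2],
    ?_, ?_, ?_, ?_, ?_⟩
  · ext i j
    fin_cases i <;> fin_cases j <;> simp [CStarMatrix.star_apply]
  · ext i j
    fin_cases i <;> fin_cases j <;> simp [CStarMatrix.star_apply]
  · ext i j
    fin_cases i <;> fin_cases j <;> simp [CStarMatrix.mul_apply, Fin.sum_univ_two]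
  · ext i j
    fin_cases i <;> fin_cases j <;> simp [CStarMatrix.mul_apply, Fin.sum_univ_two] <;> norm_num
  · intro h
    have := congrFun (congrFun (congrArg CStarMatrix.ofMatrix.symm h) 0) 1
    simp [CStarMatrix.mul_apply, Fin.sum_univ_two] at this

/-- For a set with at least four elements there is a magic unitary with noncommuting entries. -/
theorem exists_noncomm (V : Type u) [Fintype V] [DecidableEq V] (hV : 4 ≤ Fintype.card V) :
    ∃ (A : Type) (_ : CStarAlgebra A) (a : Matrix V V A), IsMagic a ∧
      ∃ x y z t, a x y * a z t ≠ a z t * a x y := by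
  obtain ⟨A, _, p, q, hp, hq, pp, qq, hpq⟩ := exists_proj
  obtain ⟨ι⟩ : Nonempty (Fin 4 ↪ V) := by
    apply Function.Embedding.nonempty_of_card_le
    simpa using hV
  have hne : ∀ i j, i ≠ j → ι i ≠ ι j := fun i j h hh => h (ι.injective hh)
  let g : Equiv.Perm V := Equiv.swap (ι 0) (ι 1) * Equiv.swap (ι 2) (ι 3)
  have g0 : g (ι 0) = ι 1 := by
    show Equiv.swap (ι 0) (ι 1) (Equiv.swap (ι 2) (ι 3) (ι 0)) = ι 1
    rw [Equiv.swap_apply_of_ne_of_ne (hne 0 2 (by decide)) (hne 0 3 (by decide)),
      Equiv.swap_apply_left]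
  have g1 : g (ι 1) = ι 0 := by
    show Equiv.swap (ι 0) (ι 1) (Equiv.swap (ι 2) (ι 3) (ι 1)) = ι 0
    rw [Equiv.swap_apply_of_ne_of_ne (hne 1 2 (by decide)) (hne 1 3 (by decide)),
      Equiv.swap_apply_right]
  have g2 : g (ι 2) = ι 3 := by
    show Equiv.swap (ι 0) (ι 1) (Equiv.swap (ι 2) (ι 3) (ι 2)) = ι 3
    rw [Equiv.swap_apply_left,
      Equiv.swap_apply_of_ne_of_ne (hne 3 0 (by decide)) (hne 3 1 (by decide))]
  have g3 : g (ι 3) = ι 2 := by
    show Equiv.swap (ι 0) (ι 1) (Equiv.swap (ι 2) (ι 3) (ι 3)) = ι 2
    rw [Equiv.swap_apply_right,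
      Equiv.swap_apply_of_ne_of_ne (hne 2 0 (by decide)) (hne 2 1 (by decide))]
  have gother : ∀ x, x ≠ ι 0 → x ≠ ι 1 → x ≠ ι 2 → x ≠ ι 3 → g x = x := by
    intro x h0 h1 h2 h3
    show Equiv.swap (ι 0) (ι 1) (Equiv.swap (ι 2) (ι 3) x) = x
    rw [Equiv.swap_apply_of_ne_of_ne h2 h3, Equiv.swap_apply_of_ne_of_ne h0 h1]
  have gg : ∀ x, g (g x) = x := by
    intro x
    by_cases h0 : x = ι 0
    · rw [h0, g0, g1]
    by_cases h1 : x = ι 1
    · rw [h1, g1, g0]
    by_cases h2 : x = ι 2
    · rw [h2, g2, g3]
    by_cases h3 : x = ι 3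
    · rw [h3, g3, g2]
    rw [gother x h0 h1 h2 h3, gother x h0 h1 h2 h3]
  let P : V → A := fun x => if x = ι 0 ∨ x = ι 1 then p else if x = ι 2 ∨ x = ι 3 then q else 0
  have P0 : P (ι 0) = p := by simp [P]
  have P1 : P (ι 1) = p := by simp [P]
  have P2 : P (ι 2) = q := by simp [P]
  have P3 : P (ι 3) = q := by simp [P]
  have Pother : ∀ x, x ≠ ι 0 → x ≠ ι 1 → x ≠ ι 2 → x ≠ ι 3 → P x = 0 := by
    intro x h0 h1 h2 h3
    simp [P, h0, h1, h2, h3]
  have Pstar : ∀ x, star (P x) = P x := by
    intro x
    simp only [P]
    split_ifs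
    · exact hp
    · exact hq
    · exact star_zero _
  have Pmul : ∀ x, P x * P x = P x := by
    intro x
    simp only [P]
    split_ifs
    · exact pp
    · exact qq
    · exact zero_mul _
  have Pg : ∀ x, P (g x) = P x := by
    intro x
    by_cases h0 : x = ι 0
    · rw [h0, g0, P1, P0]
    by_cases h1 : x = ι 1
    · rw [h1, g1, P1, P0]
    by_cases h2 : x = ι 2
    · rw [h2, g2, P3, P2]
    by_cases h3 : x = ι 3
    · rw [h3, g3, P3, P2]
    rw [gother x h0 h1 h2 h3]
  have Pfix : ∀ x, g x = x → P x = 0 := by
    intro x hx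
    apply Pother
    · intro h; rw [h, g0] at hx; exact hne 1 0 (by decide) hx
    · intro h; rw [h, g1] at hx; exact hne 0 1 (by decide) hx
    · intro h; rw [h, g2] at hx; exact hne 3 2 (by decide) hx
    · intro h; rw [h, g3] at hx; exact hne 2 3 (by decide) hx
  let a : Matrix V V A := fun x y => (if y = g x then P x else 0) + (if y = x then 1 - P x else 0)
  have hstar1 : ∀ x, star (1 - P x) = 1 - P x := by
    intro x; rw [star_sub, star_one, Pstar]
  have hmul1 : ∀ x, (1 - P x) * (1 - P x) = 1 - P x := by
    intro x; rw [mul_sub, mul_one, sub_mul, one_mul, Pmul, sub_self, sub_zero]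
  refine ⟨A, inferInstance, a, ⟨?_, ?_, ?_, ?_⟩, ι 0, ι 1, ι 2, ι 3, ?_⟩
  · intro x y
    simp only [a]
    rw [star_add]
    congr 1
    · split_ifs
      · exact Pstar x
      · exact star_zero _
    · split_ifs
      · exact hstar1 x
      · exact star_zero _
  · intro x y
    simp only [a]
    by_cases h1 : y = g x
    · by_cases h2 : y = x
      · have hx : P x = 0 := Pfix x (by rw [← h1, h2])
        rw [if_pos h1, if_pos h2, hx]; simp
      · rw [if_pos h1, if_neg h2, add_zero, Pmul]
    · by_cases h2 : y = x
      · rw [if_neg h1, if_pos h2, zero_add, hmul1]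
      · rw [if_neg h1, if_neg h2]; simp
  · intro x
    simp only [a]
    rw [Finset.sum_add_distrib]
    simp
  · intro y
    simp only [a]
    rw [Finset.sum_add_distrib]
    have h1 : ∀ x, (y = g x) ↔ (x = g y) := by
      intro x
      constructor
      · intro h; rw [h, gg]
      · intro h; rw [h, gg]
    simp only [h1]
    rw [Finset.sum_ite_eq' Finset.univ (g y) P, Finset.sum_ite_eq Finset.univ y (fun x => 1 - P x)]
    simp [Pg]
  · have e1 : a (ι 0) (ι 1) = p := by
      simp only [a]
      rw [g0, if_pos rfl, if_neg (hne 1 0 (by decide)), P0, add_zero]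
    have e2 : a (ι 2) (ι 3) = q := by
      simp only [a]
      rw [g2, if_pos rfl, if_neg (hne 3 2 (by decide)), P2, add_zero]
    rw [e1, e2]
    exact hpq

end NonCommuting

/-- **The quantum automorphism group of the complete hypergraph is the classical symmetric group.**
For every finite set `V`:
* the algebra `C(S_V)` of functions on the permutations of `V`, with its canonical magic unitaries
  `symV V` and `symE V`, is the universal unital C*-algebra of `Aut⁺(Γ_V)`;
* if `V` has at least four elements, then `Aut⁺(Γ_V) ≠ S_V⁺`: for every universal unital C*-algebra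
  `(B, a) = C(S_V⁺)` generated by a magic unitary indexed by `V`, the canonical *-homomorphism
  `π : C(S_V⁺) → C(Aut⁺(Γ_V)) = C(S_V)` is not injective, and there is no magic unitary `b` over `B`
  with `A_s b = a A_s` and `A_r b = a A_r`; moreover there is a magic unitary over some unital
  C*-algebra for which no such `b` exists. -/
theorem result (V : Type u) [Fintype V] [DecidableEq V] :
    IsUniversalAutPair.{u, u, w} (complete V) (symV V) (symE V) ∧
    (4 ≤ Fintype.card V →
      (∀ (B : Type v) [CStarAlgebra B] (a : Matrix V V B), IsUniversalMagic.{u, v, 0} a →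
        (∀ π : B →⋆ₐ[ℂ] (Equiv.Perm V → ℂ), (∀ x y, π (a x y) = symV V x y) →
          ¬ Function.Injective π) ∧
        ¬ ∃ b, IsAutPair (complete V) a b) ∧
      ∃ (A : Type) (_ : CStarAlgebra A) (a : Matrix V V A), IsMagic a ∧
        ¬ ∃ b, IsAutPair (complete V) a b) := by
  refine ⟨⟨sym_pair V, ?_⟩, ?_⟩
  · intro A _ a' b' h
    obtain ⟨φ, hφ⟩ := exists_hom h.magicV h.comm
    refine ⟨φ, ⟨hφ, ?_⟩, ?_⟩
    · have h1 := (sym_pair V).map φ
      have h2 : (symV V).map φ = a' := by
        ext x y; exact hφ x y
      rw [h2] at h1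
      have h3 := h1.unique h
      intro e f
      exact congrFun (congrFun h3 e) f
    · intro ψ hψ
      exact hom_ext fun x y => by rw [hψ.1, hφ]
  · intro hV
    obtain ⟨A, _, a', ha', x, y, z, t, hne⟩ := exists_noncomm V hV
    refine ⟨?_, A, inferInstance, a', ha', ?_⟩
    · intro B _ a ha
      obtain ⟨φ, hφ, -⟩ := ha.2 A a' ha'
      have key : ¬ (a x y * a z t = a z t * a x y) := by
        intro hh
        apply hne
        rw [← hφ, ← hφ, ← map_mul, hh, map_mul]
      refine ⟨?_, ?_⟩
      · intro π hπ hinj
        apply key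
        apply hinj
        rw [map_mul, map_mul, hπ, hπ, mul_comm]
      · rintro ⟨b, hb⟩
        exact key (hb.comm x y z t)
    · rintro ⟨b, hb⟩
      exact hne (hb.comm x y z t)

end Pool.Agent.Results.MP_8cf907_al.CompleteHypergraph
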